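import Pool.Agent.Helper15.T4.Stmts

set_option autoImplicit false

open Finset Pool.Agent.Helper15.T4

namespace Pool.Agent.Helper61.T4

/-- polynomial bound in one variable -/
lemma poly_lt (u : ℝ) (h0 : 0 ≤ u) (h1 : u ^ 2 < 8 / 3) :
    (1 + 3 * (4 - u) ^ 2 / 4) ^ 2 * (3 * u ^ 2 + 1) < 256 := by
  have hu : u ≤ 5 / 3 := by nlinarith
  have hQ : 0 ≤ -27 * u ^ 4 + 360 * u ^ 3 - 1665 * u ^ 2 + 2552 * u + 2296 / 3 := by
    have e1 : 0 ≤ u ^ 3 * (360 - 27 * u) := by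
      apply mul_nonneg (by positivity); linarith
    have e2 : 0 ≤ u * (5 / 3 - u) := mul_nonneg h0 (by linarith)
    nlinarith [e1, e2]
  have key : 4096 - (3 * u ^ 2 - 24 * u + 52) ^ 2 * (1 + 3 * u ^ 2) =
      (u - 4 / 3) ^ 2 * (-27 * u ^ 4 + 360 * u ^ 3 - 1665 * u ^ 2 + 2552 * u + 2296 / 3) + 848 / 27 := by
    ring
  have h2 : 0 ≤ (u - 4 / 3) ^ 2 *
      (-27 * u ^ 4 + 360 * u ^ 3 - 1665 * u ^ 2 + 2552 * u + 2296 / 3) :=
    mul_nonneg (sq_nonneg _) hQ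
  have e : (1 + 3 * (4 - u) ^ 2 / 4) ^ 2 * (3 * u ^ 2 + 1) =
      (3 * u ^ 2 - 24 * u + 52) ^ 2 * (1 + 3 * u ^ 2) / 16 := by ring
  rw [e]
  linarith

/-- pair bound, large sum -/
lemma pair_ge (a b : ℝ) (ha : 0 ≤ a) (hb : 0 ≤ b) (h : 2 ≤ a + b) :
    (1 + 3 * a ^ 2) * (1 + 3 * b ^ 2) ≤ (1 + 3 * (a + b) ^ 2 / 4) ^ 2 := by
  have hw : a * b ≤ (a + b) ^ 2 / 4 := by nlinarith [sq_nonneg (a - b)]
  have hw0 : 0 ≤ a * b := mul_nonneg ha hb
  have ht : 1 ≤ (a + b) ^ 2 / 4 := by nlinarith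
  have key : (1 + 3 * (a + b) ^ 2 / 4) ^ 2 - (1 + 3 * a ^ 2) * (1 + 3 * b ^ 2) =
      ((a + b) ^ 2 / 4 - a * b) * (9 * ((a + b) ^ 2 / 4 + a * b) - 6) := by ring
  have : 0 ≤ ((a + b) ^ 2 / 4 - a * b) * (9 * ((a + b) ^ 2 / 4 + a * b) - 6) :=
    mul_nonneg (by linarith) (by linarith)
  linarith

lemma pair_eq (a b : ℝ) (ha : 0 ≤ a) (hb : 0 ≤ b) (h : 2 ≤ a + b)
    (he : (1 + 3 * a ^ 2) * (1 + 3 * b ^ 2) = (1 + 3 * (a + b) ^ 2 / 4) ^ 2) : a = b := by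
  have hw0 : 0 ≤ a * b := mul_nonneg ha hb
  have ht : 1 ≤ (a + b) ^ 2 / 4 := by nlinarith
  have key : (1 + 3 * (a + b) ^ 2 / 4) ^ 2 - (1 + 3 * a ^ 2) * (1 + 3 * b ^ 2) =
      ((a + b) ^ 2 / 4 - a * b) * (9 * ((a + b) ^ 2 / 4 + a * b) - 6) := by ring
  have h0 : ((a + b) ^ 2 / 4 - a * b) * (9 * ((a + b) ^ 2 / 4 + a * b) - 6) = 0 := by
    rw [← key]; linarith
  rcases mul_eq_zero.mp h0 with h1 | h1
  · have : (a - b) ^ 2 = 0 := by nlinarith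
    have := pow_eq_zero_iff (two_ne_zero) |>.mp this
    linarith
  · exfalso; nlinarith

/-- the four variable lemma with the first pair large -/
lemma four_aux (a b c d : ℝ) (ha : 0 ≤ a) (hb : 0 ≤ b) (hc : 0 ≤ c) (hd : 0 ≤ d)
    (hs : a + b + c + d = 4) (h2 : 2 ≤ a + b) :
    (1 + 3 * a ^ 2) * (1 + 3 * b ^ 2) * ((1 + 3 * c ^ 2) * (1 + 3 * d ^ 2)) ≤ 256 ∧
    ((1 + 3 * a ^ 2) * (1 + 3 * b ^ 2) * ((1 + 3 * c ^ 2) * (1 + 3 * d ^ 2)) = 256 →
      a = 1 ∧ b = 1 ∧ c = 1 ∧ d = 1) := by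
  have h1 := pair_ge a b ha hb h2
  have p1 : 0 < (1 + 3 * a ^ 2) * (1 + 3 * b ^ 2) := by positivity
  have p2 : 0 < (1 + 3 * c ^ 2) * (1 + 3 * d ^ 2) := by positivity
  set t : ℝ := c + d with ht
  have ht0 : 0 ≤ t := by positivity
  have ht2 : t ≤ 2 := by linarith
  have hab : a + b = 4 - t := by linarith
  rw [hab] at h1
  by_cases hcase : (1 + 3 * c ^ 2) * (1 + 3 * d ^ 2) ≤ (1 + 3 * t ^ 2 / 4) ^ 2
  · have hprod : (1 + 3 * (4 - t) ^ 2 / 4) * (1 + 3 * t ^ 2 / 4) =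
        16 - 3 * (2 - t) ^ 2 + 9 * (2 - t) ^ 4 / 16 := by ring
    have hle : (1 + 3 * (4 - t) ^ 2 / 4) * (1 + 3 * t ^ 2 / 4) ≤ 16 := by
      rw [hprod]
      have : (2 - t) ^ 2 ≤ 4 := by nlinarith
      nlinarith [sq_nonneg (2 - t)]
    have hpos : 0 ≤ (1 + 3 * (4 - t) ^ 2 / 4) * (1 + 3 * t ^ 2 / 4) := by positivity
    have hmul : (1 + 3 * a ^ 2) * (1 + 3 * b ^ 2) * ((1 + 3 * c ^ 2) * (1 + 3 * d ^ 2)) ≤
        (1 + 3 * (4 - t) ^ 2 / 4) ^ 2 * (1 + 3 * t ^ 2 / 4) ^ 2 :=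
      mul_le_mul h1 hcase p2.le (by positivity)
    have hsq : (1 + 3 * (4 - t) ^ 2 / 4) ^ 2 * (1 + 3 * t ^ 2 / 4) ^ 2 =
        ((1 + 3 * (4 - t) ^ 2 / 4) * (1 + 3 * t ^ 2 / 4)) ^ 2 := by ring
    have h256 : ((1 + 3 * (4 - t) ^ 2 / 4) * (1 + 3 * t ^ 2 / 4)) ^ 2 ≤ 256 := by nlinarith
    refine ⟨by linarith, fun he => ?_⟩
    have e16 : (1 + 3 * (4 - t) ^ 2 / 4) * (1 + 3 * t ^ 2 / 4) = 16 := by
      apply le_antisymm hle
      by_contra hlt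
      push Not at hlt
      have : ((1 + 3 * (4 - t) ^ 2 / 4) * (1 + 3 * t ^ 2 / 4)) ^ 2 < 256 := by nlinarith
      linarith
    have ht' : t = 2 := by
      rw [hprod] at e16
      have hh : (2 - t) ^ 2 ≤ 4 := by nlinarith
      have : (2 - t) ^ 2 = 0 := by
        by_contra hne
        have hp : 0 < (2 - t) ^ 2 := lt_of_le_of_ne (sq_nonneg _) (Ne.symm hne)
        nlinarith
      have := pow_eq_zero_iff (two_ne_zero) |>.mp this
      linarith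
    have q1 : 0 < (1 + 3 * (4 - t) ^ 2 / 4) ^ 2 := by positivity
    have q2 : 0 < (1 + 3 * t ^ 2 / 4) ^ 2 := by positivity
    have ee : (1 + 3 * (4 - t) ^ 2 / 4) ^ 2 * (1 + 3 * t ^ 2 / 4) ^ 2 = 256 := by
      rw [hsq, e16]; norm_num
    have eq1 : (1 + 3 * a ^ 2) * (1 + 3 * b ^ 2) = (1 + 3 * (4 - t) ^ 2 / 4) ^ 2 := by
      apply le_antisymm h1
      by_contra hlt
      push Not at hlt
      have : (1 + 3 * a ^ 2) * (1 + 3 * b ^ 2) * ((1 + 3 * c ^ 2) * (1 + 3 * d ^ 2)) <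
          (1 + 3 * (4 - t) ^ 2 / 4) ^ 2 * (1 + 3 * t ^ 2 / 4) ^ 2 :=
        mul_lt_mul hlt hcase p2 q1.le
      linarith
    have eq2 : (1 + 3 * c ^ 2) * (1 + 3 * d ^ 2) = (1 + 3 * t ^ 2 / 4) ^ 2 := by
      apply le_antisymm hcase
      by_contra hlt
      push Not at hlt
      have : (1 + 3 * a ^ 2) * (1 + 3 * b ^ 2) * ((1 + 3 * c ^ 2) * (1 + 3 * d ^ 2)) <
          (1 + 3 * (4 - t) ^ 2 / 4) ^ 2 * (1 + 3 * t ^ 2 / 4) ^ 2 :=
        mul_lt_mul' h1 hlt p2.le q1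
      linarith
    have hab' : a = b := by
      apply pair_eq a b ha hb h2
      rw [eq1, ← hab]
    have hcd' : c = d := by
      apply pair_eq c d hc hd (by rw [← ht]; linarith)
      rw [eq2]
    refine ⟨by linarith, by linarith, by linarith, by linarith⟩
  · push Not at hcase
    have hw0 : 0 ≤ c * d := mul_nonneg hc hd
    have hw : c * d ≤ t ^ 2 / 4 := by rw [ht]; nlinarith [sq_nonneg (c - d)]
    have key : (1 + 3 * t ^ 2 / 4) ^ 2 - (1 + 3 * c ^ 2) * (1 + 3 * d ^ 2) =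
        (t ^ 2 / 4 - c * d) * (9 * (t ^ 2 / 4 + c * d) - 6) := by rw [ht]; ring
    have hneg : (t ^ 2 / 4 - c * d) * (9 * (t ^ 2 / 4 + c * d) - 6) < 0 := by linarith
    have hsmall : 9 * (t ^ 2 / 4 + c * d) - 6 < 0 := by
      by_contra hge
      push Not at hge
      have := mul_nonneg (sub_nonneg.mpr hw) hge
      linarith
    have ht8 : t ^ 2 < 8 / 3 := by linarith
    have hg : (1 + 3 * c ^ 2) * (1 + 3 * d ^ 2) ≤ 3 * t ^ 2 + 1 := by
      have e : 3 * t ^ 2 + 1 - (1 + 3 * c ^ 2) * (1 + 3 * d ^ 2) = c * d * (6 - 9 * (c * d)) := by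
        rw [ht]; ring
      have : 0 ≤ c * d * (6 - 9 * (c * d)) := mul_nonneg hw0 (by nlinarith [sq_nonneg t])
      linarith
    have hlt := poly_lt t ht0 ht8
    have hmul : (1 + 3 * a ^ 2) * (1 + 3 * b ^ 2) * ((1 + 3 * c ^ 2) * (1 + 3 * d ^ 2)) ≤
        (1 + 3 * (4 - t) ^ 2 / 4) ^ 2 * (3 * t ^ 2 + 1) :=
      mul_le_mul h1 hg p2.le (by positivity)
    exact ⟨by linarith, fun he => by exfalso; linarith⟩

lemma four_lem (a b c d : ℝ) (ha : 0 ≤ a) (hb : 0 ≤ b) (hc : 0 ≤ c) (hd : 0 ≤ d)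
    (hs : a + b + c + d = 4) :
    (1 + 3 * a ^ 2) * (1 + 3 * b ^ 2) * ((1 + 3 * c ^ 2) * (1 + 3 * d ^ 2)) ≤ 256 ∧
    ((1 + 3 * a ^ 2) * (1 + 3 * b ^ 2) * ((1 + 3 * c ^ 2) * (1 + 3 * d ^ 2)) = 256 →
      a = 1 ∧ b = 1 ∧ c = 1 ∧ d = 1) := by
  rcases le_total 2 (a + b) with h | h
  · exact four_aux a b c d ha hb hc hd hs h
  · have := four_aux c d a b hc hd ha hb (by linarith) (by linarith)
    rw [mul_comm ((1 + 3 * c ^ 2) * (1 + 3 * d ^ 2))] at this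
    refine ⟨this.1, fun he => ?_⟩
    obtain ⟨h1, h2, h3, h4⟩ := this.2 he
    exact ⟨h3, h4, h1, h2⟩

/-- Cauchy-Schwarz for four functions -/
lemma cs4 (f : Fin 4 → Fin 4 → ℝ) (hf : ∀ d c, 0 ≤ f d c) :
    (∑ c, ∏ d, f d c) ^ 4 ≤ ∏ d, ∑ c, f d c ^ 4 := by
  have h1 : (∑ c, ∏ d, f d c) ^ 2 ≤
      (∑ c, (f 0 c * f 1 c) ^ 2) * (∑ c, (f 2 c * f 3 c) ^ 2) := by
    have := Finset.sum_mul_sq_le_sq_mul_sq (univ : Finset (Fin 4))
      (fun c => f 0 c * f 1 c) (fun c => f 2 c * f 3 c)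
    refine le_trans (le_of_eq ?_) this
    congr 1
    apply Finset.sum_congr rfl
    intro c _
    rw [Fin.prod_univ_four]; ring
  have h2 : (∑ c, (f 0 c * f 1 c) ^ 2) ^ 2 ≤ (∑ c, f 0 c ^ 4) * (∑ c, f 1 c ^ 4) := by
    have := Finset.sum_mul_sq_le_sq_mul_sq (univ : Finset (Fin 4))
      (fun c => f 0 c ^ 2) (fun c => f 1 c ^ 2)
    refine le_trans (le_of_eq ?_) (le_trans this (le_of_eq ?_))
    · congr 1
      apply Finset.sum_congr rfl
      intro c _; ring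
    · congr 1 <;> (apply Finset.sum_congr rfl; intro c _; ring)
  have h3 : (∑ c, (f 2 c * f 3 c) ^ 2) ^ 2 ≤ (∑ c, f 2 c ^ 4) * (∑ c, f 3 c ^ 4) := by
    have := Finset.sum_mul_sq_le_sq_mul_sq (univ : Finset (Fin 4))
      (fun c => f 2 c ^ 2) (fun c => f 3 c ^ 2)
    refine le_trans (le_of_eq ?_) (le_trans this (le_of_eq ?_))
    · congr 1
      apply Finset.sum_congr rfl
      intro c _; ring
    · congr 1 <;> (apply Finset.sum_congr rfl; intro c _; ring)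
  have e : (∑ c, ∏ d, f d c) ^ 4 = ((∑ c, ∏ d, f d c) ^ 2) ^ 2 := by ring
  rw [e, Fin.prod_univ_four]
  calc ((∑ c, ∏ d, f d c) ^ 2) ^ 2
      ≤ ((∑ c, (f 0 c * f 1 c) ^ 2) * (∑ c, (f 2 c * f 3 c) ^ 2)) ^ 2 :=
        pow_le_pow_left₀ (sq_nonneg _) h1 2
    _ = (∑ c, (f 0 c * f 1 c) ^ 2) ^ 2 * (∑ c, (f 2 c * f 3 c) ^ 2) ^ 2 := by ring
    _ ≤ ((∑ c, f 0 c ^ 4) * (∑ c, f 1 c ^ 4)) * ((∑ c, f 2 c ^ 4) * (∑ c, f 3 c ^ 4)) := by
        apply mul_le_mul h2 h3 (sq_nonneg _)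
        apply mul_nonneg <;> exact Finset.sum_nonneg (fun c _ => pow_nonneg (hf _ c) 4)
    _ = _ := by ring

theorem HOLD : ST_HOLD := by
  intro m X hm hX hX2
  set s : ℝ := ∑ d, X d with hs
  set T : ℝ := ∑ c, ∏ d ∈ univ.erase c, m d c with hT
  have hs0 : 0 ≤ s := Finset.sum_nonneg (fun d _ => hX d)
  have hT0 : 0 ≤ T := Finset.sum_nonneg (fun c _ => Finset.prod_nonneg (fun d _ => hm d c))
  rcases hs0.eq_or_lt with h0 | hpos
  · -- s = 0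
    have hX0 : ∀ d, X d = 0 := by
      intro d
      have := (Finset.sum_eq_zero_iff_of_nonneg (fun d _ => hX d)).mp h0.symm d (mem_univ d)
      exact this
    have hsum0 : ∀ d, ∑ c ∈ univ.erase d, m d c ^ 4 = 0 := by
      intro d
      apply le_antisymm
      · have := hX2 d; rw [hX0 d] at this; linarith
      · exact Finset.sum_nonneg (fun c _ => pow_nonneg (hm d c) 4)
    have hm0 : ∀ d c, c ≠ d → m d c = 0 := by
      intro d c hcd
      have := (Finset.sum_eq_zero_iff_of_nonneg (fun c _ => pow_nonneg (hm d c) 4)).mp (hsum0 d) c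
        (Finset.mem_erase.mpr ⟨hcd, mem_univ c⟩)
      exact pow_eq_zero_iff (four_ne_zero) |>.mp this
    have hTz : T = 0 := by
      rw [hT]
      apply Finset.sum_eq_zero
      intro c _
      have : ∃ d : Fin 4, d ≠ c := exists_ne c
      obtain ⟨d, hd⟩ := this
      exact Finset.prod_eq_zero (Finset.mem_erase.mpr ⟨hd, mem_univ d⟩) (hm0 d c hd.symm)
    rw [hTz, ← h0]
    refine ⟨by norm_num, fun _ d => ⟨by rw [hX0 d]; norm_num, ?_⟩⟩
    rw [hsum0 d, hX0 d]; norm_num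
  · -- s > 0
    set lam : ℝ := Real.sqrt (s / 6) with hlam
    have hlam0 : 0 < lam := Real.sqrt_pos.mpr (by positivity)
    have hlam2 : lam ^ 2 = s / 6 := Real.sq_sqrt (by positivity)
    have hlam4 : lam ^ 4 = s ^ 2 / 36 := by
      have : lam ^ 4 = (lam ^ 2) ^ 2 := by ring
      rw [this, hlam2]; ring
    set f : Fin 4 → Fin 4 → ℝ := fun d c => if c = d then lam else m d c with hf
    have hfn : ∀ d c, 0 ≤ f d c := by
      intro d c
      simp only [hf]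
      split_ifs
      · exact hlam0.le
      · exact hm d c
    have hprod : ∀ c, ∏ d, f d c = lam * ∏ d ∈ univ.erase c, m d c := by
      intro c
      rw [← Finset.mul_prod_erase univ (fun d => f d c) (mem_univ c)]
      congr 1
      · simp [hf]
      · apply Finset.prod_congr rfl
        intro d hd
        have : c ≠ d := (Finset.mem_erase.mp hd).1.symm
        simp [hf, this]
    have hsumf : ∀ d, ∑ c, f d c ^ 4 = lam ^ 4 + ∑ c ∈ univ.erase d, m d c ^ 4 := by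
      intro d
      rw [← Finset.add_sum_erase univ (fun c => f d c ^ 4) (mem_univ d)]
      congr 1
      · simp [hf]
      · apply Finset.sum_congr rfl
        intro c hc
        have : c ≠ d := (Finset.mem_erase.mp hc).1
        simp [hf, this]
    have hcs := cs4 f hfn
    have hlT : ∑ c, ∏ d, f d c = lam * T := by
      rw [hT, Finset.mul_sum]
      exact Finset.sum_congr rfl (fun c _ => hprod c)
    rw [hlT] at hcs
    set P : Fin 4 → ℝ := fun d => ∑ c, f d c ^ 4 with hP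
    set y : Fin 4 → ℝ := fun d => 4 * X d / s with hy
    have hy0 : ∀ d, 0 ≤ y d := fun d => by
      simp only [hy]; have := hX d; positivity
    have hysum : y 0 + y 1 + y 2 + y 3 = 4 := by
      have : s = X 0 + X 1 + X 2 + X 3 := by rw [hs, Fin.sum_univ_four]
      simp only [hy]
      rw [this] at hpos ⊢
      field_simp
    have hPle : ∀ d, P d ≤ s ^ 2 / 36 * (1 + 3 * y d ^ 2) := by
      intro d
      have h1 : P d = lam ^ 4 + ∑ c ∈ univ.erase d, m d c ^ 4 := hsumf d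
      have h2 : s ^ 2 / 36 * (1 + 3 * y d ^ 2) = s ^ 2 / 36 + 4 / 3 * X d ^ 2 := by
        simp only [hy]; field_simp; ring
      rw [h1, h2, hlam4]
      have := hX2 d
      linarith
    have hPpos : ∀ d, 0 < P d := by
      intro d
      have h1 : P d = lam ^ 4 + ∑ c ∈ univ.erase d, m d c ^ 4 := hsumf d
      rw [h1]
      have : 0 ≤ ∑ c ∈ univ.erase d, m d c ^ 4 := Finset.sum_nonneg (fun c _ => pow_nonneg (hm d c) 4)
      positivity
    have hBpos : ∀ d, 0 < s ^ 2 / 36 * (1 + 3 * y d ^ 2) := fun d => by positivity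
    have h4 := four_lem (y 0) (y 1) (y 2) (y 3) (hy0 0) (hy0 1) (hy0 2) (hy0 3) hysum
    have hprodle : ∏ d, P d ≤ ∏ d, (s ^ 2 / 36 * (1 + 3 * y d ^ 2)) :=
      Finset.prod_le_prod (fun d _ => (hPpos d).le) (fun d _ => hPle d)
    have hprodB : ∏ d, (s ^ 2 / 36 * (1 + 3 * y d ^ 2)) = (s ^ 2 / 36) ^ 4 *
        ((1 + 3 * y 0 ^ 2) * (1 + 3 * y 1 ^ 2) * ((1 + 3 * y 2 ^ 2) * (1 + 3 * y 3 ^ 2))) := by
      rw [Fin.prod_univ_four]; ring
    have hc4 : 0 < (s ^ 2 / 36) ^ 4 := by positivity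
    have hlT4 : (lam * T) ^ 4 = s ^ 2 / 36 * T ^ 4 := by
      rw [mul_pow, hlam4]
    have hmain : s ^ 2 / 36 * T ^ 4 ≤ (s ^ 2 / 36) ^ 4 * 256 := by
      rw [← hlT4]
      calc (lam * T) ^ 4 ≤ ∏ d, P d := hcs
        _ ≤ _ := hprodle
        _ = _ := hprodB
        _ ≤ (s ^ 2 / 36) ^ 4 * 256 := mul_le_mul_of_nonneg_left h4.1 hc4.le
    have hT4 : T ^ 4 ≤ (2 / 27 * s ^ 3) ^ 2 := by
      have h36 : 0 < s ^ 2 / 36 := by positivity
      have e : (s ^ 2 / 36) ^ 4 * 256 = s ^ 2 / 36 * (2 / 27 * s ^ 3) ^ 2 := by ring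
      rw [e] at hmain
      exact le_of_mul_le_mul_left hmain h36
    have hle : T ^ 2 ≤ 2 / 27 * s ^ 3 := by
      have e : T ^ 4 = (T ^ 2) ^ 2 := by ring
      rw [e] at hT4
      exact le_of_sq_le_sq hT4 (by positivity)
    refine ⟨hle, fun heq => ?_⟩
    -- equality
    have hT4e : s ^ 2 / 36 * T ^ 4 = (s ^ 2 / 36) ^ 4 * 256 := by
      have e : T ^ 4 = (T ^ 2) ^ 2 := by ring
      rw [e, heq]; ring
    have hE1 : ∏ d, P d = ∏ d, (s ^ 2 / 36 * (1 + 3 * y d ^ 2)) := by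
      apply le_antisymm hprodle
      calc ∏ d, (s ^ 2 / 36 * (1 + 3 * y d ^ 2)) = _ := hprodB
        _ ≤ (s ^ 2 / 36) ^ 4 * 256 := mul_le_mul_of_nonneg_left h4.1 hc4.le
        _ = s ^ 2 / 36 * T ^ 4 := hT4e.symm
        _ = (lam * T) ^ 4 := hlT4.symm
        _ ≤ _ := hcs
    have hE2 : (1 + 3 * y 0 ^ 2) * (1 + 3 * y 1 ^ 2) * ((1 + 3 * y 2 ^ 2) * (1 + 3 * y 3 ^ 2)) = 256 := by
      apply le_antisymm h4.1
      have : (s ^ 2 / 36) ^ 4 * 256 ≤ (s ^ 2 / 36) ^ 4 *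
          ((1 + 3 * y 0 ^ 2) * (1 + 3 * y 1 ^ 2) * ((1 + 3 * y 2 ^ 2) * (1 + 3 * y 3 ^ 2))) := by
        rw [← hprodB, ← hT4e, ← hlT4]
        exact hcs.trans hprodle
      exact le_of_mul_le_mul_left this hc4
    obtain ⟨y0, y1, y2, y3⟩ := h4.2 hE2
    have hyall : ∀ d, y d = 1 := by
      intro d; fin_cases d <;> assumption
    have hPe : ∀ d, P d = s ^ 2 / 36 * (1 + 3 * y d ^ 2) := by
      intro d
      by_contra hne
      have hlt : P d < s ^ 2 / 36 * (1 + 3 * y d ^ 2) := lt_of_le_of_ne (hPle d) hne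
      have : ∏ d, P d < ∏ d, (s ^ 2 / 36 * (1 + 3 * y d ^ 2)) :=
        Finset.prod_lt_prod (fun d _ => hPpos d) (fun d _ => hPle d) ⟨d, mem_univ d, hlt⟩
      linarith
    intro d
    have hXd : X d = s / 4 := by
      have := hyall d
      simp only [hy] at this
      field_simp at this
      linarith
    refine ⟨hXd, ?_⟩
    have h1 : P d = lam ^ 4 + ∑ c ∈ univ.erase d, m d c ^ 4 := hsumf d
    have h2 : s ^ 2 / 36 * (1 + 3 * y d ^ 2) = s ^ 2 / 36 + 4 / 3 * X d ^ 2 := by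
      simp only [hy]; field_simp; ring
    have h3 := hPe d
    rw [h1, h2, hlam4] at h3
    linarith

end Pool.Agent.Helper61.T4
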